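import Mathlib

set_option autoImplicit false
open Finset

/-!
# Covering the unit square by rectangles of total area 3

A family of axis-parallel rectangles is given by the widths `w i` and the heights `h i`, `i : ι`.
The proof stacks rows. Sort a finite family by height and put the highest rectangles side by side
until their total width is at least `1`; if the last one has height `H`, the row covers a strip of
height `H`, and the area of the row is at most `b + H`, where `b` bounds the heights in the row.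
Hence a finite family with heights at most `b` and area at least `b + 2 Y` covers `[0,1] × [0,Y]`.
A rectangle of width `1` covers a strip by itself, which leaves room for passing to a finite
subfamily.
-/

namespace Pool.Agent.Results.MP_6800d9_co.MoserRectangles

variable {ι : Type*}

/-- Translates of the rectangles with index in `F` cover `[0, X] × [0, Y]`. -/
def Cov (w h : ι → ℝ) (F : Finset ι) (X Y : ℝ) : Prop :=
  ∃ v : ι → ℝ × ℝ, ∀ x y : ℝ, 0 ≤ x → x ≤ X → 0 ≤ y → y ≤ Y →
    ∃ i ∈ F, (v i).1 ≤ x ∧ x ≤ (v i).1 + w i ∧ (v i).2 ≤ y ∧ y ≤ (v i).2 + h i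

theorem Cov.mono {w h : ι → ℝ} {F G : Finset ι} {X Y Y' : ℝ} (hc : Cov w h F X Y) (hF : F ⊆ G)
    (hY : Y' ≤ Y) : Cov w h G X Y' := by
  obtain ⟨v, hv⟩ := hc
  refine ⟨v, fun x y h1 h2 h3 h4 => ?_⟩
  obtain ⟨i, hi, h⟩ := hv x y h1 h2 h3 (h4.trans hY)
  exact ⟨i, hF hi, h⟩

/-- A row. -/
theorem row [DecidableEq ι] {w h : ι → ℝ} (F : Finset ι) {H : ℝ} (hH : ∀ i ∈ F, H ≤ h i)
    (hne : F.Nonempty) : Cov w h F (∑ i ∈ F, w i) H := by
  induction hne using Finset.Nonempty.cons_induction with
  | singleton a =>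
    refine ⟨fun _ => (0, 0), fun x y h1 h2 h3 h4 => ⟨a, mem_singleton_self a, h1, ?_, h3, ?_⟩⟩
    · rw [sum_singleton] at h2; linarith
    · have := hH a (mem_singleton_self a); linarith
  | cons a F ha hne ih =>
    obtain ⟨v, hv⟩ := ih (fun i hi => hH i (mem_cons_of_mem hi))
    refine ⟨fun i => if i = a then (∑ i ∈ F, w i, 0) else v i, fun x y h1 h2 h3 h4 => ?_⟩
    rw [sum_cons] at h2
    rcases le_total x (∑ i ∈ F, w i) with hx | hx
    · obtain ⟨i, hi, h5⟩ := hv x y h1 hx h3 h4
      have hia : i ≠ a := fun e => ha (e ▸ hi)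
      exact ⟨i, mem_cons_of_mem hi, by simpa only [if_neg hia] using h5⟩
    · refine ⟨a, mem_cons_self a F, ?_⟩
      simp only [if_true]
      have := hH a (mem_cons_self a F)
      exact ⟨hx, by linarith, h3, by linarith⟩

/-- Stacking. -/
theorem stack [DecidableEq ι] {w h : ι → ℝ} {F G : Finset ι} {X Y Y' : ℝ} (hd : Disjoint F G)
    (hF : Cov w h F X Y) (hG : Cov w h G X Y') : Cov w h (F ∪ G) X (Y + Y') := by
  obtain ⟨v, hv⟩ := hF
  obtain ⟨u, hu⟩ := hG
  refine ⟨fun i => if i ∈ F then v i else ((u i).1, (u i).2 + Y), fun x y h1 h2 h3 h4 => ?_⟩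
  rcases le_total y Y with hy | hy
  · obtain ⟨i, hi, h5⟩ := hv x y h1 h2 h3 hy
    exact ⟨i, mem_union_left _ hi, by simpa only [if_pos hi] using h5⟩
  · obtain ⟨i, hi, h5, h6, h7, h8⟩ := hu x (y - Y) h1 h2 (by linarith) (by linarith)
    have hiF : i ∉ F := fun h => (Finset.disjoint_left.1 hd) h hi
    refine ⟨i, mem_union_right _ hi, ?_⟩
    simp only [if_neg hiF]
    exact ⟨h5, h6, by linarith, by linarith⟩

/-- A finite family with widths at most `1`, heights at most `b` and area at least `b + 2 Y`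
covers `[0, 1] × [0, Y]`. -/
theorem shelf [DecidableEq ι] {w h : ι → ℝ} (hw : ∀ i, 0 < w i ∧ w i ≤ 1) (hh : ∀ i, 0 < h i) :
    ∀ (n : ℕ) (F : Finset ι), F.card = n → ∀ b Y : ℝ, 0 < b → 0 ≤ Y → (∀ i ∈ F, h i ≤ b) →
      b + 2 * Y ≤ ∑ i ∈ F, w i * h i → Cov w h F 1 Y := by
  intro n
  induction n using Nat.strong_induction_on with
  | _ n ih =>
    intro F hn b Y hb hY hFb harea
    -- the total width is at least `1`
    have hW : 1 ≤ ∑ i ∈ F, w i := by
      have h1 : ∑ i ∈ F, w i * h i ≤ ∑ i ∈ F, w i * b :=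
        sum_le_sum fun i hi => mul_le_mul_of_nonneg_left (hFb i hi) (hw i).1.le
      rw [← sum_mul] at h1
      by_contra hlt
      push Not at hlt
      nlinarith
    -- a minimal set of highest rectangles with total width at least `1`
    have hex : ∃ U ∈ F.powerset.filter (fun U => (∀ i ∈ U, ∀ j ∈ F \ U, h j ≤ h i) ∧
        1 ≤ ∑ i ∈ U, w i), ∀ U' ∈ F.powerset.filter (fun U => (∀ i ∈ U, ∀ j ∈ F \ U, h j ≤ h i) ∧
        1 ≤ ∑ i ∈ U, w i), U.card ≤ U'.card := by
      apply Finset.exists_min_image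
      refine ⟨F, ?_⟩
      rw [mem_filter, mem_powerset]
      refine ⟨subset_rfl, ?_, hW⟩
      intro i _ j hj
      simp at hj
    obtain ⟨U, hU, hmin⟩ := hex
    rw [mem_filter, mem_powerset] at hU
    obtain ⟨hUF, hup, hU1⟩ := hU
    have hUne : U.Nonempty := by
      rw [nonempty_iff_ne_empty]
      rintro rfl
      rw [sum_empty] at hU1
      linarith
    obtain ⟨l, hl, hlmin⟩ := Finset.exists_min_image U h hUne
    have herase : ∑ i ∈ U.erase l, w i < 1 := by
      by_contra hge
      push Not at hge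
      have hmem : U.erase l ∈ F.powerset.filter (fun U => (∀ i ∈ U, ∀ j ∈ F \ U, h j ≤ h i) ∧
          1 ≤ ∑ i ∈ U, w i) := by
        rw [mem_filter, mem_powerset]
        refine ⟨(erase_subset _ _).trans hUF, ?_, hge⟩
        intro i hi j hj
        rw [mem_erase] at hi
        rw [mem_sdiff, mem_erase, not_and_or, not_not] at hj
        rcases hj.2 with h1 | h1
        · rw [h1]; exact hlmin i hi.2
        · exact hup i hi.2 j (mem_sdiff.2 ⟨hj.1, h1⟩)
      have h1 := hmin _ hmem
      rw [card_erase_of_mem hl] at h1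
      have h2 : 0 < U.card := card_pos.2 hUne
      omega
    have hrow : Cov w h U 1 (h l) := by
      obtain ⟨v, hv⟩ := row (w := w) (h := h) U hlmin hUne
      exact ⟨v, fun x y h1 h2 h3 h4 => hv x y h1 (h2.trans hU1) h3 h4⟩
    rcases le_or_gt Y (h l) with hYH | hYH
    · exact hrow.mono hUF hYH
    · -- the area of the row
      have hareaU : ∑ i ∈ U, w i * h i ≤ b + h l := by
        rw [← add_sum_erase U _ hl]
        have h1 : ∑ i ∈ U.erase l, w i * h i ≤ ∑ i ∈ U.erase l, w i * b :=
          sum_le_sum fun i hi => mul_le_mul_of_nonneg_left (hFb i (hUF (mem_of_mem_erase hi)))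
            (hw i).1.le
        rw [← sum_mul] at h1
        have h2 : w l * h l ≤ 1 * h l := mul_le_mul_of_nonneg_right (hw l).2 (hh l).le
        nlinarith
      have hsplit : ∑ i ∈ F \ U, w i * h i + ∑ i ∈ U, w i * h i = ∑ i ∈ F, w i * h i :=
        sum_sdiff hUF
      have hcard : (F \ U).card < n := by
        rw [← hn, card_sdiff_of_subset hUF]
        have h2 : 0 < U.card := card_pos.2 hUne
        have h3 := card_le_card hUF
        omega
      have hrest := ih _ hcard (F \ U) rfl (h l) (Y - h l) (hh l) (by linarith)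
        (fun j hj => hup l hl j hj) (by linarith)
      have := stack (disjoint_sdiff (s := U) (t := F)) hrow hrest
      refine this.mono ?_ (by linarith)
      exact union_subset hUF sdiff_subset

/-- The case of a rectangle of width `1`. -/
theorem width_one {w h : ι → ℝ} (hw : ∀ i, 0 < w i ∧ w i ≤ 1)
    (hh : ∀ i, 0 < h i ∧ h i ≤ 1) {e : ι} (he : w e = 1) {A : ℝ} (hA : 3 ≤ A)
    (hs : HasSum (fun i => w i * h i) A) : ∃ F : Finset ι, Cov w h F 1 1 := by
  classical
  -- a finite subfamily of area at least `3 - h e`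
  have hlt : A - h e < A := by linarith [(hh e).1]
  obtain ⟨F₀, hF₀⟩ := (hs.eventually (lt_mem_nhds hlt)).exists
  set F := insert e F₀ with hF
  have heF : e ∈ F := mem_insert_self _ _
  have hFA : 3 - h e ≤ ∑ i ∈ F, w i * h i := by
    have h1 : ∑ i ∈ F₀, w i * h i ≤ ∑ i ∈ F, w i * h i :=
      sum_le_sum_of_subset_of_nonneg (subset_insert _ _)
        (fun i _ _ => mul_nonneg (hw i).1.le (hh i).1.le)
    linarith
  rw [← add_sum_erase F _ heF, he, one_mul] at hFA
  have h2 := shelf hw (fun i => (hh i).1) _ (F.erase e) rfl 1 (1 - h e) one_pos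
    (by linarith [(hh e).2]) (fun i _ => (hh i).2) (by linarith)
  have h1 : Cov w h {e} 1 (h e) :=
    ⟨fun _ => (0, 0), fun x y h1 h2 h3 h4 =>
      ⟨e, mem_singleton_self e, h1, by simp only; linarith, h3, by simp only; linarith⟩⟩
  have h3 := stack (by simp) h1 h2
  exact ⟨{e} ∪ F.erase e, h3.mono subset_rfl (by linarith)⟩

/-- Every family of axis-parallel rectangles (widths `w i`, heights `h i`, indexed by any set)
with all sides at most `1`, some side equal to `1`, and total area at least `3`, covers the unit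
square by translations. -/
theorem result (w h : ι → ℝ) (hw : ∀ i, 0 < w i ∧ w i ≤ 1) (hh : ∀ i, 0 < h i ∧ h i ≤ 1)
    (hone : ∃ i, w i = 1 ∨ h i = 1) (A : ℝ) (hA : 3 ≤ A)
    (harea : HasSum (fun i => w i * h i) A) :
    ∃ v : ι → ℝ × ℝ, Set.Icc (0 : ℝ) 1 ×ˢ Set.Icc (0 : ℝ) 1 ⊆
      ⋃ i, (fun p => p + v i) '' (Set.Icc 0 (w i) ×ˢ Set.Icc 0 (h i)) := by
  obtain ⟨e, he | he⟩ := hone
  · obtain ⟨F, v, hv⟩ := width_one hw hh he hA harea
    refine ⟨v, ?_⟩
    rintro ⟨x, y⟩ ⟨⟨h1, h2⟩, h3, h4⟩
    obtain ⟨i, _, h5, h6, h7, h8⟩ := hv x y h1 h2 h3 h4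
    refine Set.mem_iUnion.2 ⟨i, (x - (v i).1, y - (v i).2), ?_, ?_⟩
    · exact ⟨⟨by simp only; linarith, by simp only; linarith⟩,
        ⟨by simp only; linarith, by simp only; linarith⟩⟩
    · ext <;> simp
  · have harea' : HasSum (fun i => h i * w i) A := by
      simpa only [mul_comm] using harea
    obtain ⟨F, v, hv⟩ := width_one hh hw he hA harea'
    refine ⟨fun i => ((v i).2, (v i).1), ?_⟩
    rintro ⟨x, y⟩ ⟨⟨h1, h2⟩, h3, h4⟩
    obtain ⟨i, _, h5, h6, h7, h8⟩ := hv y x h3 h4 h1 h2
    refine Set.mem_iUnion.2 ⟨i, (x - (v i).2, y - (v i).1), ?_, ?_⟩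
    · exact ⟨⟨by simp only; linarith, by simp only; linarith⟩,
        ⟨by simp only; linarith, by simp only; linarith⟩⟩
    · ext <;> simp

end Pool.Agent.Results.MP_6800d9_co.MoserRectangles
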